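import Pool.Agent.Helper87.HQ.St

set_option autoImplicit false

namespace Pool.Agent.Helper16.HQ

open Pool.Agent.Helper87.HQ
open Set MvPolynomial Topology

private theorem ev2_eq {n : ℕ} (y : Fin n → ℝ) (w : ℝ) (g : Polynomial (MvPolynomial (Fin n) ℝ)) :
    ev2 y w g = (g.map ((aeval y : MvPolynomial (Fin n) ℝ →ₐ[ℝ] ℝ) :
      MvPolynomial (Fin n) ℝ →+* ℝ)).eval w := by
  unfold ev2
  rw [Polynomial.eval₂_eq_eval_map]

private theorem cont_t {n : ℕ} (u : Fin (n + 1) → ℝ) (w : ℝ)
    (m : Polynomial (MvPolynomial (Fin (n + 1)) ℝ)) :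
    Continuous fun t : ℝ => ev2 (Function.update u 0 t) w m := by
  unfold ev2
  simp only [Polynomial.eval₂_eq_sum, Polynomial.sum]
  refine continuous_finsetSum _ fun i _ => Continuous.mul ?_ continuous_const
  have h : Continuous fun t : ℝ => eval (Function.update u 0 t) (m.coeff i) :=
    (MvPolynomial.continuous_eval (m.coeff i)).comp (continuous_const.update 0 continuous_id)
  refine h.congr fun t => ?_
  rw [← MvPolynomial.coe_aeval_eq_eval]

theorem hA4 : StA4 := by
  intro n m Δ u w h0 h1 hΔ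
  have hu : Function.update u 0 (u 0) = u := Function.update_eq_self 0 u
  have hcw : ∀ y : Fin (n + 1) → ℝ, Continuous fun w' : ℝ => ev2 y w' m := by
    intro y
    simp only [ev2_eq]
    exact Polynomial.continuous _
  have hder : deriv (fun w' : ℝ => ev2 u w' m) w = ev2 u w (Polynomial.derivative m) := by
    simp only [ev2_eq]
    rw [Polynomial.deriv, Polynomial.derivative_map]
  have hneg : ∃ w1 : ℝ, ev2 u w1 m < 0 := by
    by_contra hcon
    push Not at hcon
    apply h1
    rw [← hder]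
    refine IsLocalMin.deriv_eq_zero (Filter.Eventually.of_forall fun x => ?_)
    show ev2 u w m ≤ ev2 u x m
    rw [h0]
    exact hcon x
  have hpos : ∃ w2 : ℝ, 0 < ev2 u w2 m := by
    by_contra hcon
    push Not at hcon
    apply h1
    rw [← hder]
    refine IsLocalMax.deriv_eq_zero (Filter.Eventually.of_forall fun x => ?_)
    show ev2 u x m ≤ ev2 u w m
    rw [h0]
    exact hcon x
  obtain ⟨w1, hw1⟩ := hneg
  obtain ⟨w2, hw2⟩ := hpos
  have e1 : ∀ᶠ t in 𝓝 (u 0), ev2 (Function.update u 0 t) w1 m < 0 := by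
    refine (cont_t u w1 m).continuousAt.eventually_lt continuousAt_const ?_
    simp only [hu]
    exact hw1
  have e2 : ∀ᶠ t in 𝓝 (u 0), 0 < ev2 (Function.update u 0 t) w2 m := by
    refine continuousAt_const.eventually_lt (cont_t u w2 m).continuousAt ?_
    simp only [hu]
    exact hw2
  have e3 : ∀ᶠ t in 𝓝 (u 0), eval (Function.update u 0 t) Δ ≠ 0 := by
    have hc : Continuous fun t : ℝ => eval (Function.update u 0 t) Δ :=
      (MvPolynomial.continuous_eval Δ).comp (continuous_const.update 0 continuous_id)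
    refine hc.continuousAt.eventually_ne ?_
    simp only [hu]
    exact hΔ
  obtain ⟨a, b, ⟨ha, hb⟩, hab⟩ := mem_nhds_iff_exists_Ioo_subset.1 (e1.and (e2.and e3))
  refine ⟨a, b, ha.trans hb, fun t ht => ?_⟩
  obtain ⟨f1, f2, f3⟩ := hab ht
  obtain ⟨w', hw'⟩ := mem_range_of_exists_le_of_exists_ge (hcw (Function.update u 0 t))
    ⟨w1, f1.le⟩ ⟨w2, f2.le⟩
  exact ⟨w', hw', f3⟩

end Pool.Agent.Helper16.HQ
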